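import Mathlib

/-!
# `κ`-surjective linear orders, for every cardinal `κ`

The starting file `StronglySurjective` treats sets of reals of size `κ` for `κ` of uncountable
cofinality. Here `κ` is arbitrary (singular cardinals of countable cofinality included), the order
may be larger than `κ`, and it may be any linear order without well-ordered and without reversely
well-ordered suborders of type `θ`, for some regular uncountable `θ ≤ κ`. This hypothesis cannot be
dropped.
-/

namespace Pool.Agent.Results.MP_8a117e_lc.EveryCardinal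

open Set Cardinal

universe u

/-- If no suborder of `L` has the order type of the cardinal `θ`, then every subset of `L` has a
cofinal subset with fewer than `θ` elements. -/
theorem exists_cofinal {L : Type u} [LinearOrder L] {θ : Cardinal.{u}}
    (hθ : IsEmpty (θ.ord.ToType ↪o L)) (S : Set L) :
    ∃ C ⊆ S, Cardinal.mk C < θ ∧ ∀ s ∈ S, ∃ c ∈ C, s ≤ c := by
  classical
  by_contra hcon
  push Not at hcon
  have hne : Nonempty L := by
    by_contra hL
    rw [not_nonempty_iff] at hL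
    have h0 : Cardinal.mk (∅ : Set L) < θ := by
      rw [Cardinal.mk_eq_zero]
      refine pos_iff_ne_zero.mpr ?_
      rintro rfl
      rw [Cardinal.ord_zero] at hθ
      exact hθ.false ⟨⟨fun x => isEmptyElim x, fun x => isEmptyElim x⟩, fun {x} => isEmptyElim x⟩
    obtain ⟨s, -, -⟩ := hcon ∅ (empty_subset _) h0
    exact hL.false s
  have hcon' : ∀ C : Set L, ∃ s : L, C ⊆ S → Cardinal.mk C < θ → s ∈ S ∧ ∀ c ∈ C, c < s := by
    intro C
    by_cases h1 : C ⊆ S
    · by_cases h2 : Cardinal.mk C < θ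
      · obtain ⟨s, hs, hsc⟩ := hcon C h1 h2
        exact ⟨s, fun _ _ => ⟨hs, hsc⟩⟩
      · exact ⟨hne.some, fun _ h => absurd h h2⟩
    · exact ⟨hne.some, fun h => absurd h h1⟩
  choose g hg using hcon'
  let F : θ.ord.ToType → L :=
    WellFounded.fix (r := fun x y : θ.ord.ToType => x < y) wellFounded_lt
      (fun x ih => g (range (fun y : {y : θ.ord.ToType // y < x} => ih y.1 y.2)))
  have hF : ∀ x, F x = g (F '' Iio x) := by
    intro x
    change WellFounded.fix (r := fun x y : θ.ord.ToType => x < y) wellFounded_lt _ x = _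
    rw [WellFounded.fix_eq]
    congr 1
    ext z
    constructor
    · rintro ⟨y, rfl⟩
      exact ⟨y.1, y.2, rfl⟩
    · rintro ⟨y, hy, rfl⟩
      exact ⟨⟨y, hy⟩, rfl⟩
  have hsmall : ∀ x, Cardinal.mk (F '' Iio x) < θ := fun x =>
    mk_image_le.trans_lt (Cardinal.mk_Iio_toType_ord_lt x)
  have hS : ∀ x, F x ∈ S := by
    intro x
    induction x using WellFoundedLT.induction with
    | ind x ih =>
      rw [hF x]
      refine (hg _ ?_ (hsmall x)).1
      rintro _ ⟨y, hy, rfl⟩
      exact ih y hy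
  have hmono : StrictMono F := by
    intro x y hxy
    have h1 : F '' Iio y ⊆ S := by
      rintro _ ⟨z, -, rfl⟩
      exact hS z
    have h2 := (hg _ h1 (hsmall y)).2 (F x) ⟨x, hxy, rfl⟩
    rw [← hF y] at h2
    exact h2
  exact hθ.false (OrderEmbedding.ofStrictMono F hmono)

/-- The part of `N` where the final segments have fewer than `ν` elements has itself fewer than `ν`
elements. -/
theorem small_upper {L : Type u} [LinearOrder L] {θ ν : Cardinal.{u}} (hν : ν.IsRegular)
    (hθν : θ ≤ ν) (hθ : IsEmpty (θ.ord.ToType ↪o Lᵒᵈ)) (N : Set L) :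
    Cardinal.mk {y | y ∈ N ∧ Cardinal.mk (N ∩ Ici y : Set L) < ν} < ν := by
  obtain ⟨C, hCG, hCθ, hC⟩ := exists_cofinal hθ
    (OrderDual.ofDual ⁻¹' {y | y ∈ N ∧ Cardinal.mk (N ∩ Ici y : Set L) < ν})
  have hsub : {y | y ∈ N ∧ Cardinal.mk (N ∩ Ici y : Set L) < ν} ⊆
      ⋃ c : C, (N ∩ Ici (OrderDual.ofDual c.1) : Set L) := by
    intro y hy
    obtain ⟨c, hc, hyc⟩ := hC (OrderDual.toDual y) hy
    exact mem_iUnion.mpr ⟨⟨c, hc⟩, hy.1, hyc⟩
  refine (mk_le_mk_of_subset hsub).trans_lt ?_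
  refine (mk_iUnion_le _).trans_lt ?_
  have hC' : Cardinal.mk C < ν := hCθ.trans_le hθν
  refine mul_lt_of_lt hν.aleph0_le hC' ?_
  refine Cardinal.iSup_lt_of_lt_cof_ord ?_ ?_
  · rw [hν.cof_ord]
    exact hC'
  · intro c
    exact (hCG c.2).2

/-- In a `κ`-surjective order (`κ` uncountable) the final segments have at least `κ` elements. -/
theorem le_mk_Ici {L : Type u} [LinearOrder L] {κ θ : Cardinal.{u}} (hκ : κ ≤ Cardinal.mk L)
    (hθ : θ.IsRegular) (hθκ : θ ≤ κ) (hem : IsEmpty (θ.ord.ToType ↪o Lᵒᵈ))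
    (hs : ∀ M : Set L, Cardinal.mk M = κ → ∃ f : L → M, Monotone f ∧ Function.Surjective f)
    (y : L) : κ ≤ Cardinal.mk (Ici y) := by
  by_contra hlt
  push Not at hlt
  obtain ⟨ν, hν, hθν, hνκ, hyν⟩ : ∃ ν : Cardinal.{u}, ν.IsRegular ∧ θ ≤ ν ∧ ν ≤ κ ∧
      Cardinal.mk (Ici y) < ν := by
    by_cases h : Cardinal.mk (Ici y) < θ
    · exact ⟨θ, hθ, le_rfl, hθκ, h⟩
    · push Not at h
      exact ⟨Order.succ (Cardinal.mk (Ici y)), isRegular_succ (hθ.aleph0_le.trans h),
        h.trans (Order.le_succ _), Order.succ_le_of_lt hlt, Order.lt_succ _⟩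
  have hκ0 : ℵ₀ ≤ κ := hθ.aleph0_le.trans hθκ
  obtain ⟨N, hN⟩ := Cardinal.le_mk_iff_exists_set.mp hκ
  set G : Set L := {y | y ∈ N ∧ Cardinal.mk (N ∩ Ici y : Set L) < ν} with hG
  have hGν : Cardinal.mk G < ν := small_upper hν hθν hem N
  have hM : Cardinal.mk (N \ G : Set L) = κ := by
    apply le_antisymm
    · exact hN ▸ mk_le_mk_of_subset sdiff_subset
    · by_contra hc
      push Not at hc
      have h1 : Cardinal.mk N < κ := by
        refine (mk_le_mk_of_subset (t := (N \ G) ∪ G) ?_).trans_lt ?_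
        · intro x hx
          by_cases hxG : x ∈ G
          · exact Or.inr hxG
          · exact Or.inl ⟨hx, hxG⟩
        · exact (mk_union_le _ _).trans_lt (add_lt_of_lt hκ0 hc (hGν.trans_le hνκ))
      exact absurd hN h1.ne
  obtain ⟨f, hf, hfs⟩ := hs _ hM
  have hm : ν ≤ Cardinal.mk (N ∩ Ici (f y : L) : Set L) := by
    by_contra hc
    push Not at hc
    exact (f y).2.2 ⟨(f y).2.1, hc⟩
  have hm2 : ν ≤ Cardinal.mk ((N \ G) ∩ Ici (f y : L) : Set L) := by
    by_contra hc
    push Not at hc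
    refine absurd hm (not_le.mpr ?_)
    refine (mk_le_mk_of_subset (t := ((N \ G) ∩ Ici (f y : L)) ∪ G) ?_).trans_lt ?_
    · rintro x ⟨hx, hx2⟩
      by_cases hxG : x ∈ G
      · exact Or.inr hxG
      · exact Or.inl ⟨⟨hx, hxG⟩, hx2⟩
    · exact (mk_union_le _ _).trans_lt (add_lt_of_lt hν.aleph0_le hc hGν)
  have hsub : ((N \ G) ∩ Ici (f y : L) : Set L) ⊆ (fun x => (f x : L)) '' Ici y := by
    rintro z ⟨hz, hz2⟩
    obtain ⟨x, hx⟩ := hfs ⟨z, hz⟩
    rcases le_or_gt y x with h | h
    · exact ⟨x, h, by simp [hx]⟩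
    · refine ⟨y, le_refl y, ?_⟩
      have h1 : f x ≤ f y := hf h.le
      rw [hx] at h1
      have h2 : z ≤ (f y : L) := h1
      exact le_antisymm hz2 h2
  exact absurd (hm2.trans ((mk_le_mk_of_subset hsub).trans mk_image_le)) (not_le.mpr hyν)

/-- In a `κ`-surjective order (`κ` uncountable) the initial segments have at least `κ`
elements. -/
theorem le_mk_Iic {L : Type u} [LinearOrder L] {κ θ : Cardinal.{u}} (hκ : κ ≤ Cardinal.mk L)
    (hθ : θ.IsRegular) (hθκ : θ ≤ κ) (hem : IsEmpty (θ.ord.ToType ↪o L))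
    (hs : ∀ M : Set L, Cardinal.mk M = κ → ∃ f : L → M, Monotone f ∧ Function.Surjective f)
    (y : L) : κ ≤ Cardinal.mk (Iic y) := by
  have h := le_mk_Ici (L := Lᵒᵈ) (κ := κ) (θ := θ) hκ hθ hθκ
    ⟨fun e => hem.false (e.trans (OrderIso.dualDual L).symm.toOrderEmbedding)⟩ ?_
    (OrderDual.toDual y)
  · exact h
  · intro M hM
    obtain ⟨f, hf, hfs⟩ := hs (OrderDual.toDual ⁻¹' M) hM
    refine ⟨fun x => ⟨OrderDual.toDual (f (OrderDual.ofDual x)).1, (f (OrderDual.ofDual x)).2⟩,
      ?_, ?_⟩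
    · intro a b hab
      exact hf (show OrderDual.ofDual b ≤ OrderDual.ofDual a from hab)
    · rintro ⟨z, hz⟩
      obtain ⟨x, hx⟩ := hfs ⟨OrderDual.ofDual z, hz⟩
      refine ⟨OrderDual.toDual x, ?_⟩
      apply Subtype.ext
      have h1 : ((f x : _) : L) = OrderDual.ofDual z := by rw [hx]
      exact h1

/-- A linear order has a monotone retraction onto every finite nonempty subset. -/
theorem onto_finite {L : Type u} [LinearOrder L] (K : Set L) (hK : K.Nonempty) (hf : K.Finite) :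
    ∃ f : L → K, Monotone f ∧ Function.Surjective f := by
  classical
  have hne : hf.toFinset.Nonempty := by simpa using hK
  let m : L := hf.toFinset.min' hne
  have hm : m ∈ K := by
    have := Finset.min'_mem hf.toFinset hne
    simpa using this
  let A : L → Finset L := fun x => insert m (hf.toFinset.filter (fun k => k ≤ x))
  have hA : ∀ x, (A x).Nonempty := fun x => ⟨m, Finset.mem_insert_self _ _⟩
  let r : L → L := fun x => (A x).max' (hA x)
  have hr : ∀ x, r x ∈ K := by
    intro x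
    have h1 : r x ∈ A x := Finset.max'_mem _ _
    rcases Finset.mem_insert.mp h1 with h | h
    · rw [h]; exact hm
    · have := (Finset.mem_filter.mp h).1
      simpa using this
  have hmono : Monotone r := by
    intro x y hxy
    apply Finset.max'_subset
    intro z hz
    rcases Finset.mem_insert.mp hz with h | h
    · rw [h]; exact Finset.mem_insert_self _ _
    · obtain ⟨h1, h2⟩ := Finset.mem_filter.mp h
      exact Finset.mem_insert_of_mem (Finset.mem_filter.mpr ⟨h1, h2.trans hxy⟩)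
  have hfix : ∀ k ∈ K, r k = k := by
    intro k hk
    apply le_antisymm
    · apply Finset.max'_le
      intro z hz
      rcases Finset.mem_insert.mp hz with h | h
      · rw [h]
        exact Finset.min'_le _ _ (by simpa using hk)
      · exact (Finset.mem_filter.mp h).2
    · apply Finset.le_max'
      exact Finset.mem_insert_of_mem (Finset.mem_filter.mpr ⟨by simpa using hk, le_refl k⟩)
  refine ⟨fun x => ⟨r x, hr x⟩, fun x y hxy => hmono hxy, ?_⟩
  rintro ⟨k, hk⟩
  exact ⟨k, Subtype.ext (hfix k hk)⟩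

/-- The general theorem: `κ`-surjectivity passes down to all smaller cardinals. -/
theorem main {L : Type u} [LinearOrder L] {κ : Cardinal.{u}} (hκ : κ ≤ Cardinal.mk L)
    (hθ : ℵ₀ < κ → ∃ θ : Cardinal.{u}, θ.IsRegular ∧ ℵ₀ < θ ∧ θ ≤ κ ∧
      IsEmpty (θ.ord.ToType ↪o L) ∧ IsEmpty (θ.ord.ToType ↪o Lᵒᵈ))
    (hs : ∀ M : Set L, Cardinal.mk M = κ → ∃ f : L → M, Monotone f ∧ Function.Surjective f)
    (K : Set L) (hK : K.Nonempty) (hKκ : Cardinal.mk K ≤ κ) :
    ∃ f : L → K, Monotone f ∧ Function.Surjective f := by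
  classical
  rcases hKκ.eq_or_lt with heq | hlt
  · exact hs K heq
  by_cases hfin : Cardinal.mk K < ℵ₀
  · exact onto_finite K hK (Cardinal.lt_aleph0_iff_set_finite.mp hfin)
  push Not at hfin
  have hκ0 : ℵ₀ < κ := hfin.trans_lt hlt
  obtain ⟨θ, hθr, -, hθκ, hem1, hem2⟩ := hθ hκ0
  obtain ⟨k, hk⟩ := hK
  -- `κ` many points above `k`
  have hup : κ ≤ Cardinal.mk (Ioi k) := by
    by_contra hc
    push Not at hc
    have h1 := le_mk_Ici hκ hθr hθκ hem2 hs k
    refine absurd h1 (not_le.mpr ?_)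
    refine (mk_le_mk_of_subset (t := insert k (Ioi k)) ?_).trans_lt ?_
    · intro x hx
      rcases eq_or_lt_of_le (mem_Ici.mp hx) with h | h
      · exact Or.inl h.symm
      · exact Or.inr h
    · refine (mk_insert_le).trans_lt ?_
      exact add_lt_of_lt hκ0.le hc (one_lt_aleph0.trans hκ0)
  obtain ⟨N, hNk, hN⟩ := Cardinal.le_mk_iff_exists_subset.mp hup
  have hP : Cardinal.mk (K ∪ N : Set L) = κ := by
    apply le_antisymm
    · refine (mk_union_le _ _).trans ?_
      rw [hN]
      exact add_le_of_le hκ0.le hKκ le_rfl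
    · rw [← hN]
      exact mk_le_mk_of_subset subset_union_right
  obtain ⟨f, hf, hfs⟩ := hs _ hP
  -- the preimage of `K` is large
  have hbig : κ ≤ Cardinal.mk {x | (f x : L) ∈ K} := by
    obtain ⟨x, hx⟩ := hfs ⟨k, Or.inl hk⟩
    refine (le_mk_Iic hκ hθr hθκ hem1 hs x).trans (mk_le_mk_of_subset ?_)
    intro z hz
    have h1 : f z ≤ f x := hf hz
    rw [hx] at h1
    have h2 : (f z : L) ≤ k := h1
    rcases (f z).2 with h | h
    · exact h
    · exact absurd (hNk h) (not_lt.mpr h2)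
  obtain ⟨N', hN'K, hN'⟩ := Cardinal.le_mk_iff_exists_subset.mp hbig
  choose s hsx using fun z : K => hfs ⟨z.1, Or.inl z.2⟩
  have hM : Cardinal.mk (N' ∪ range s : Set L) = κ := by
    apply le_antisymm
    · refine (mk_union_le _ _).trans ?_
      rw [hN']
      exact add_le_of_le hκ0.le le_rfl (mk_range_le.trans hKκ)
    · conv_lhs => rw [← hN']
      exact mk_le_mk_of_subset subset_union_left
  have hMK : ∀ x ∈ (N' ∪ range s : Set L), (f x : L) ∈ K := by
    rintro x (hx | ⟨z, rfl⟩)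
    · exact hN'K hx
    · rw [hsx z]
      exact z.2
  obtain ⟨g, hg, hgs⟩ := hs _ hM
  refine ⟨fun x => ⟨(f (g x).1 : L), hMK _ (g x).2⟩, ?_, ?_⟩
  · intro x y hxy
    exact hf (hg hxy)
  · intro z
    obtain ⟨x, hx⟩ := hgs ⟨s z, Or.inr ⟨z, rfl⟩⟩
    refine ⟨x, Subtype.ext ?_⟩
    change ((f (g x).1 : _) : L) = z
    rw [hx, hsx z]

/-- There is no strictly monotone function from `ω₁` to the reals. -/
theorem no_omega_one (F : (ℵ₁ : Cardinal.{0}).ord.ToType → ℝ) : ¬ StrictMono F := by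
  intro hF
  have : NoMaxOrder (ℵ₁ : Cardinal.{0}).ord.ToType :=
    Cardinal.noMaxOrder (aleph0_le_aleph 1)
  have hcount : (univ : Set (ℵ₁ : Cardinal.{0}).ord.ToType).Countable := by
    refine Set.PairwiseDisjoint.countable_of_isOpen
      (s := fun x => Ioo (F x) (F (Order.succ x))) ?_ (fun _ _ => isOpen_Ioo) ?_
    · have key : ∀ a b, a < b →
          Disjoint (Ioo (F a) (F (Order.succ a))) (Ioo (F b) (F (Order.succ b))) := by
        intro a b hab
        rw [Set.disjoint_left]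
        intro z hz hz'
        have h1 : F (Order.succ a) ≤ F b := hF.monotone (Order.succ_le_of_lt hab)
        exact absurd (hz.2.trans_le h1) (not_lt.mpr hz'.1.le)
      intro a _ b _ hab
      rcases lt_or_gt_of_ne hab with h | h
      · exact key a b h
      · exact (key b a h).symm
    · intro a _
      exact nonempty_Ioo.mpr (hF (Order.lt_succ a))
  have h1 : Cardinal.mk (ℵ₁ : Cardinal.{0}).ord.ToType ≤ ℵ₀ := by
    rw [← mk_univ]
    exact hcount.le_aleph0
  rw [Cardinal.mk_ord_toType] at h1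
  exact absurd h1 (not_le.mpr (aleph0_lt_aleph_one))

/-- Every subset of the well-order of type `κ` with `κ` elements is order isomorphic to it. -/
theorem ord_iso (κ : Cardinal.{u}) (M : Set κ.ord.ToType) (hM : Cardinal.mk M = κ) :
    Nonempty (κ.ord.ToType ≃o M) := by
  have h1 : Ordinal.type (fun x y : M => x < y) =
      Ordinal.type (fun x y : κ.ord.ToType => x < y) := by
    apply le_antisymm
    · exact Ordinal.type_le_iff'.mpr ⟨(OrderEmbedding.subtype M).ltEmbedding⟩
    · rw [Ordinal.type_toType]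
      have h2 := Cardinal.ord_le_type (fun x y : M => x < y)
      rwa [hM] at h2
  obtain ⟨e⟩ := Ordinal.type_eq.mp h1
  exact ⟨(OrderIso.ofRelIsoLT e).symm⟩

/-- A monotone surjection from the well-order of type `κ` onto the well-order of type `ν` (`ν`
infinite) exists only if the two have the same cofinality. -/
theorem cof_eq {κ ν : Cardinal.{u}} (hν : ℵ₀ ≤ ν) (f : κ.ord.ToType → ν.ord.ToType)
    (hf : Monotone f) (hfs : Function.Surjective f) : ν.ord.cof = κ.ord.cof := by
  have : NoMaxOrder ν.ord.ToType := Cardinal.noMaxOrder hν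
  choose s hs using hfs
  have hmono : StrictMono s := by
    intro a b hab
    by_contra hc
    have h1 := hf (not_lt.mp hc)
    rw [hs, hs] at h1
    exact absurd hab (not_lt.mpr h1)
  have hcof : IsCofinal (range s) := by
    intro x
    obtain ⟨k, hk⟩ := exists_gt (f x)
    refine ⟨s k, ⟨k, rfl⟩, ?_⟩
    by_contra hc
    have h1 := hf (not_le.mp hc).le
    rw [hs] at h1
    exact absurd hk (not_lt.mpr h1)
  have h := Order.cof_congr_of_strictMono hmono hcof
  rwa [Ordinal.cof_toType, Ordinal.cof_toType] at h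

/-- The well-order of type `κ` (`κ` uncountable) has a suborder which is not a monotone image. -/
theorem sharp (κ : Cardinal.{u}) (hκ : ℵ₀ < κ) : ∃ K : Set κ.ord.ToType, K.Nonempty ∧
    ¬ ∃ f : κ.ord.ToType → K, Monotone f ∧ Function.Surjective f := by
  obtain ⟨ν, hν, hνκ, hne⟩ : ∃ ν : Cardinal.{u}, ν.IsRegular ∧ ν ≤ κ ∧ ν ≠ κ.ord.cof := by
    by_cases h : κ.ord.cof = ℵ₀
    · refine ⟨ℵ₁, isRegular_aleph_one, ?_, ?_⟩
      · rw [← succ_aleph0]
        exact Order.succ_le_of_lt hκ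
      · rw [h]
        exact aleph0_lt_aleph_one.ne'
    · exact ⟨ℵ₀, isRegular_aleph0, hκ.le, fun h' => h h'.symm⟩
  let e : ν.ord.ToType ↪o κ.ord.ToType :=
    (Ordinal.initialSegToType (Cardinal.ord_le_ord.mpr hνκ)).toOrderEmbedding
  have hne' : Nonempty ν.ord.ToType := by
    rw [Ordinal.nonempty_toType_iff]
    intro h0
    rw [Cardinal.ord_eq_zero] at h0
    exact hν.pos.ne' h0
  refine ⟨range e, range_nonempty _, ?_⟩
  rintro ⟨f, hf, hfs⟩
  refine hne ?_
  have h := cof_eq hν.aleph0_le (fun x => (OrderEmbedding.orderIso (f := e)).symm (f x))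
    (fun a b hab => (OrderEmbedding.orderIso (f := e)).symm.monotone (hf hab))
    ((OrderEmbedding.orderIso (f := e)).symm.surjective.comp hfs)
  rw [hν.cof_ord] at h
  exact h

/-- **The general theorem for sets of reals.** -/
theorem reals (κ : Cardinal.{0}) (L : Set ℝ) (hκ : κ ≤ Cardinal.mk L)
    (hs : ∀ M : Set ℝ, M ⊆ L → Cardinal.mk M = κ →
      ∃ f : L → M, Monotone f ∧ Function.Surjective f)
    (K : Set ℝ) (hKL : K ⊆ L) (hK : K.Nonempty) (hKκ : Cardinal.mk K ≤ κ) :
    ∃ f : L → K, Monotone f ∧ Function.Surjective f := by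
  have hinj : Function.Injective (Subtype.val : L → ℝ) := Subtype.val_injective
  have hmk : ∀ M : Set L, Cardinal.mk (Subtype.val '' M : Set ℝ) = Cardinal.mk M := fun M =>
    mk_image_eq hinj
  have hK' : Subtype.val '' (Subtype.val ⁻¹' K : Set L) = K := by
    rw [Subtype.image_preimage_coe]
    exact inter_eq_right.mpr hKL
  have hmain := main (L := L) (κ := κ) hκ ?_ ?_ (Subtype.val ⁻¹' K) ?_ ?_
  · obtain ⟨f, hf, hfs⟩ := hmain
    refine ⟨fun x => ⟨(f x).1.1, (f x).2⟩, fun x y hxy => hf hxy, ?_⟩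
    rintro ⟨k, hk⟩
    obtain ⟨x, hx⟩ := hfs ⟨⟨k, hKL hk⟩, hk⟩
    refine ⟨x, Subtype.ext ?_⟩
    change ((f x).1.1 : ℝ) = k
    rw [hx]
  · intro h0
    refine ⟨ℵ₁, isRegular_aleph_one, aleph0_lt_aleph_one, ?_, ⟨fun e => ?_⟩, ⟨fun e => ?_⟩⟩
    · rw [← succ_aleph0]
      exact Order.succ_le_of_lt h0
    · exact no_omega_one (fun x => (e x).1) (fun a b hab => e.strictMono hab)
    · refine no_omega_one (fun x => -(OrderDual.ofDual (e x)).1) (fun a b hab => ?_)
      have h1 : OrderDual.ofDual (e b) < OrderDual.ofDual (e a) := e.strictMono hab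
      have h2 : (OrderDual.ofDual (e b)).1 < (OrderDual.ofDual (e a)).1 := h1
      exact neg_lt_neg h2
  · intro M hM
    obtain ⟨f, hf, hfs⟩ := hs (Subtype.val '' M) (by rintro _ ⟨x, -, rfl⟩; exact x.2)
      ((hmk M).trans hM)
    have hmem : ∀ x, ∃ z : L, z ∈ M ∧ z.1 = (f x).1 := fun x => by
      obtain ⟨z, hz, hzx⟩ := (f x).2
      exact ⟨z, hz, hzx⟩
    choose g hgM hgf using hmem
    refine ⟨fun x => ⟨g x, hgM x⟩, ?_, ?_⟩
    · intro x y hxy
      have h1 : (g x).1 ≤ (g y).1 := by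
        rw [hgf, hgf]
        exact hf hxy
      exact h1
    · rintro ⟨z, hz⟩
      obtain ⟨x, hx⟩ := hfs ⟨z.1, z, hz, rfl⟩
      refine ⟨x, Subtype.ext (Subtype.ext ?_)⟩
      change (g x).1 = z.1
      rw [hgf, hx]
  · obtain ⟨k, hk⟩ := hK
    exact ⟨⟨k, hKL hk⟩, hk⟩
  · rw [← hmk, hK']
    exact hKκ

/-- **Main theorem.**

(1) Every `ℵ₂`-surjective set of reals of size `ℵ₂` is strongly surjective.

(2) The same holds for every cardinal `κ`, of any cofinality, in place of `ℵ₂`.

(3) If a set of reals `L` of any size `≥ κ` is `κ`-surjective, then `L` maps monotonically onto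
all its nonempty subsets of size at most `κ`.

(4) Let `L` be a linear order of size at least `κ`; if `κ` is uncountable, suppose that for some
regular uncountable `θ ≤ κ` neither `θ` nor its reverse embeds in `L`. If `L` is `κ`-surjective,
then `L` maps monotonically onto all its nonempty suborders of size at most `κ`; in particular it
is strongly surjective if it has size `κ`.

(5) This hypothesis cannot be dropped: for every uncountable `κ` the well-order of type `κ` is
`κ`-surjective and not strongly surjective. -/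
theorem result :
    (∀ L : Set ℝ, Cardinal.mk L = ℵ_ 2 →
      (∀ M : Set ℝ, M ⊆ L → Cardinal.mk M = ℵ_ 2 →
        ∃ f : L → M, Monotone f ∧ Function.Surjective f) →
      ∀ K : Set ℝ, K ⊆ L → K.Nonempty → ∃ f : L → K, Monotone f ∧ Function.Surjective f) ∧
    (∀ κ : Cardinal.{0}, ∀ L : Set ℝ, Cardinal.mk L = κ →
      (∀ M : Set ℝ, M ⊆ L → Cardinal.mk M = κ →
        ∃ f : L → M, Monotone f ∧ Function.Surjective f) →
      ∀ K : Set ℝ, K ⊆ L → K.Nonempty → ∃ f : L → K, Monotone f ∧ Function.Surjective f) ∧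
    (∀ κ : Cardinal.{0}, ∀ L : Set ℝ, κ ≤ Cardinal.mk L →
      (∀ M : Set ℝ, M ⊆ L → Cardinal.mk M = κ →
        ∃ f : L → M, Monotone f ∧ Function.Surjective f) →
      ∀ K : Set ℝ, K ⊆ L → K.Nonempty → Cardinal.mk K ≤ κ →
        ∃ f : L → K, Monotone f ∧ Function.Surjective f) ∧
    (∀ (L : Type u) [LinearOrder L] (κ : Cardinal.{u}), κ ≤ Cardinal.mk L →
      (ℵ₀ < κ → ∃ θ : Cardinal.{u}, θ.IsRegular ∧ ℵ₀ < θ ∧ θ ≤ κ ∧
        IsEmpty (θ.ord.ToType ↪o L) ∧ IsEmpty (θ.ord.ToType ↪o Lᵒᵈ)) →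
      (∀ M : Set L, Cardinal.mk M = κ → ∃ f : L → M, Monotone f ∧ Function.Surjective f) →
      ∀ K : Set L, K.Nonempty → Cardinal.mk K ≤ κ →
        ∃ f : L → K, Monotone f ∧ Function.Surjective f) ∧
    (∀ κ : Cardinal.{u}, ℵ₀ < κ →
      Cardinal.mk κ.ord.ToType = κ ∧
      (∀ M : Set κ.ord.ToType, Cardinal.mk M = κ →
        ∃ f : κ.ord.ToType → M, Monotone f ∧ Function.Surjective f) ∧
      ∃ K : Set κ.ord.ToType, K.Nonempty ∧
        ¬ ∃ f : κ.ord.ToType → K, Monotone f ∧ Function.Surjective f) := by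
  have h2 : ∀ κ : Cardinal.{0}, ∀ L : Set ℝ, Cardinal.mk L = κ →
      (∀ M : Set ℝ, M ⊆ L → Cardinal.mk M = κ →
        ∃ f : L → M, Monotone f ∧ Function.Surjective f) →
      ∀ K : Set ℝ, K ⊆ L → K.Nonempty →
        ∃ f : L → K, Monotone f ∧ Function.Surjective f := by
    intro κ L hL hs K hKL hK
    exact reals κ L hL.ge hs K hKL hK (hL ▸ mk_le_mk_of_subset hKL)
  refine ⟨h2 _, h2, fun κ L hκ hs K hKL hK hKκ => reals κ L hκ hs K hKL hK hKκ, ?_, ?_⟩
  · intro L _ κ hκ hθ hs K hK hKκ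
    exact main hκ hθ hs K hK hKκ
  · intro κ hκ
    refine ⟨Cardinal.mk_ord_toType κ, ?_, sharp κ hκ⟩
    intro M hM
    obtain ⟨e⟩ := ord_iso κ M hM
    exact ⟨e, e.monotone, e.surjective⟩

end Pool.Agent.Results.MP_8a117e_lc.EveryCardinal
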